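import Mathlib
import Pool.Agent.L5helper81.HaarK

/-!
# An equivalent norm on `L_p[0,1]` for which the Haar system is 1-greedy

For every `1 < p < ∞`, over the real and over the complex field, `L_p[0,1]` has an equivalent norm for
which the `L_p`-normalised Haar system is 1-greedy.  A norm is an `s`-norm for every `0 < s ≤ 1`, so
this answers the question about `s`-norms, and the one about norms, positively.
-/

set_option autoImplicit false

open MeasureTheory
open scoped ENNReal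

namespace Pool.Agent.Results.MP_877d49_an.OneGreedyNorm

/-- Lebesgue measure on `[0,1]`. -/
noncomputable def leb : Measure ℝ := volume.restrict (Set.Icc 0 1)

/-- The index set of the Haar system: `none` stands for the constant function, and `some ⟨n, k⟩` with
`0 ≤ k < 2^n` for the dyadic interval `[k 2^{-n}, (k+1) 2^{-n})`. -/
abbrev Idx := Option (Σ n : ℕ, Fin (2 ^ n))

/-- The `L_p`-normalised Haar functions: `1` on `[0,1)`, and `2^{n/p}` times the indicator of the left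
half minus the indicator of the right half of `[k 2^{-n}, (k+1) 2^{-n})`. -/
noncomputable def haarFun (p : ℝ) : Idx → ℝ → ℝ
  | none => (Set.Ico (0 : ℝ) 1).indicator (fun _ => 1)
  | some ⟨n, k⟩ => fun x => (2 : ℝ) ^ ((n : ℝ) / p) *
      ((Set.Ico (((k : ℕ) : ℝ) / 2 ^ n) ((((k : ℕ) : ℝ) + 1 / 2) / 2 ^ n)).indicator (fun _ => 1) x -
        (Set.Ico ((((k : ℕ) : ℝ) + 1 / 2) / 2 ^ n) ((((k : ℕ) : ℝ) + 1) / 2 ^ n)).indicator
          (fun _ => 1) x)

lemma haarFun_eq (p : ℝ) (j : Idx) : haarFun p j = Pool.Agent.L5helper81.HaarG.haarFun p j := by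
  rcases j with _ | ⟨n, k⟩ <;> rfl

variable (𝕜 : Type) [RCLike 𝕜]

lemma memLp_haarFun (p : ℝ) (j : Idx) (P : ℝ≥0∞) :
    MemLp (fun x => ((haarFun p j x : ℝ) : 𝕜)) P leb := by
  rw [haarFun_eq]
  exact Pool.Agent.L5helper81.HaarG.memLp_haarFun 𝕜 p j P

/-- The Haar system in `L_p[0,1]` with scalars `𝕜`. -/
noncomputable def haar (p : ℝ≥0∞) (j : Idx) : Lp 𝕜 p leb :=
  (memLp_haarFun 𝕜 p.toReal j p).toLp (fun x => ((haarFun p.toReal j x : ℝ) : 𝕜))

/-- The Haar coefficients `a_j(f)`: the integral of `f` against the Haar function normalised in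
`L_{p'}`, `p' = p / (p - 1)`. -/
noncomputable def coef (p : ℝ≥0∞) (j : Idx) (f : Lp 𝕜 p leb) : 𝕜 :=
  ∫ x, ((haarFun (p.toReal / (p.toReal - 1)) j x : ℝ) : 𝕜) * f x ∂leb

/-- `N` is an `s`-norm on the `𝕜`-vector space `X`; for `s = 1` this says that `N` is a norm. -/
structure IsSNorm {X : Type} [AddCommGroup X] [Module 𝕜 X] (s : ℝ) (N : X → ℝ) : Prop where
  nonneg : ∀ f, 0 ≤ N f
  eq_zero_iff : ∀ f, N f = 0 ↔ f = 0
  smul : ∀ (t : 𝕜) f, N (t • f) = ‖t‖ * N f
  add : ∀ f g, N (f + g) ^ s ≤ N f ^ s + N g ^ s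

/-- `N` is equivalent to the given norm of `X`. -/
def EquivalentToNorm {X : Type} [NormedAddCommGroup X] (N : X → ℝ) : Prop :=
  ∃ c C : ℝ, 0 < c ∧ c ≤ C ∧ ∀ f, c * ‖f‖ ≤ N f ∧ N f ≤ C * ‖f‖

section Abstract

variable {X : Type} [NormedAddCommGroup X] [NormedSpace 𝕜 X]

/-- `a j f` are the coefficients of the (unconditionally convergent) expansion of `f` in the
system `h`. -/
structure AreCoefficients (h : Idx → X) (a : Idx → X → 𝕜) : Prop where
  hasSum : ∀ f, HasSum (fun j => a j f • h j) f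
  biorthogonal : ∀ i j, a i (h j) = if i = j then 1 else 0

/-- The finite sum `∑_{j ∈ A} c_j h_j`. -/
def lin (h : Idx → X) (A : Finset Idx) (c : Idx → 𝕜) : X := ∑ j ∈ A, c j • h j

/-- `A` is a greedy set (of order `|A|`) for `f`: `min_{j ∈ A} |a_j(f)| ≥ max_{j ∉ A} |a_j(f)|`. -/
def IsGreedySet (a : Idx → X → 𝕜) (f : X) (A : Finset Idx) : Prop :=
  ∀ i ∈ A, ∀ j, j ∉ A → ‖a j f‖ ≤ ‖a i f‖

/-- The system `h` with coefficients `a` is 1-greedy with respect to `N`: for every `f`, every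
`m ≥ 1`, every greedy set `A` of order `m` for `f`, and every `g = ∑_{j ∈ B} b_j h_j` with `|B| ≤ m`
one has `N (f - G_A f) ≤ N (f - g)`, where `G_A f = ∑_{j ∈ A} a_j(f) h_j`. -/
def IsOneGreedy (h : Idx → X) (a : Idx → X → 𝕜) (N : X → ℝ) : Prop :=
  ∀ (f : X) (m : ℕ), 1 ≤ m → ∀ A : Finset Idx, A.card = m → IsGreedySet 𝕜 a f A →
    ∀ (B : Finset Idx) (b : Idx → 𝕜), B.card ≤ m →
      N (f - lin 𝕜 h A (fun j => a j f)) ≤ N (f - lin 𝕜 h B b)

end Abstract

/-- For every `1 < p < ∞` there is an equivalent norm on `L_p[0,1]` (hence an equivalent `s`-norm for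
every `0 < s ≤ 1`) for which the Haar system is 1-greedy.  The first statement certifies that `coef`
gives the coefficients of the Haar expansion. -/
theorem result (p : ℝ≥0∞) [Fact (1 ≤ p)] (hp : 1 < p) (hp' : p ≠ ⊤) :
    AreCoefficients 𝕜 (haar 𝕜 p) (coef 𝕜 p) ∧
    ∃ N : Lp 𝕜 p leb → ℝ, EquivalentToNorm N ∧ (∀ s : ℝ, 0 < s → s ≤ 1 → IsSNorm 𝕜 s N) ∧
      IsOneGreedy 𝕜 (haar 𝕜 p) (coef 𝕜 p) N := by
  -- the exponents
  have hP : 1 < p.toReal := by
    have := (ENNReal.toReal_lt_toReal ENNReal.one_ne_top hp').2 hp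
    simpa using this
  have hP0 : 0 < p.toReal - 1 := by linarith
  set q : ℝ := p.toReal / (p.toReal - 1) with hq
  have hq1 : 1 < q := by rw [hq, lt_div_iff₀ hP0]; linarith
  set Q : ℝ≥0∞ := ENNReal.ofReal q with hQdef
  have hQr : Q.toReal = q := ENNReal.toReal_ofReal (by linarith)
  haveI : Fact (1 ≤ Q) := ⟨by rw [hQdef, ENNReal.one_le_ofReal]; exact hq1.le⟩
  have hconj : q.HolderConjugate p.toReal := by
    rw [Real.holderConjugate_comm, Real.holderConjugate_iff_eq_conjExponent hP]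
  haveI : ENNReal.HolderConjugate Q p := by
    have h1 := hconj.ennrealOfReal
    rwa [ENNReal.ofReal_toReal hp'] at h1
  have hQ : 1 < Q.toReal := by rw [hQr]; exact hq1
  have hPQ : 1 / p.toReal + 1 / Q.toReal = 1 := by
    rw [hQr, hq]; field_simp; ring
  -- the coefficients
  have hcoef : ∀ (j : Idx) (f : Lp 𝕜 p leb),
      coef 𝕜 p j f = Pool.Agent.L5helper81.HaarG.aK 𝕜 p Q j f := by
    intro j f
    rw [Pool.Agent.L5helper81.HaarG.aK_apply, hQr]
    unfold coef
    rw [haarFun_eq]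
    rfl
  have hhaar : ∀ j : Idx, haar 𝕜 p j = Pool.Agent.L5helper81.HaarG.hK 𝕜 p j := by
    intro j
    unfold haar Pool.Agent.L5helper81.HaarG.hK
    congr 1
  obtain ⟨N, hadd, hsmul, ⟨c, C, hc, hcC⟩, hgreedy⟩ :=
    Pool.Agent.L5helper81.HaarG.main (P := p) (Q := Q) 𝕜 hP hQ hPQ
  refine ⟨⟨?_, ?_⟩, N, ?_, ?_, ?_⟩
  · intro f
    simp only [hcoef, hhaar]
    exact Pool.Agent.L5helper81.HaarG.hasSum_K (P := p) (Q := Q) 𝕜 hP hPQ f
  · intro i j
    rw [hcoef, hhaar]
    exact Pool.Agent.L5helper81.HaarG.bi_K (P := p) (Q := Q) 𝕜 hPQ i j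
  · refine ⟨c, max c C, hc, le_max_left _ _, fun f => ⟨(hcC f).1, (hcC f).2.trans ?_⟩⟩
    exact mul_le_mul_of_nonneg_right (le_max_right _ _) (norm_nonneg _)
  · intro s hs hs1
    have hN0 : ∀ f, 0 ≤ N f := fun f => le_trans (by positivity) (hcC f).1
    refine ⟨hN0, fun f => ⟨fun h => ?_, fun h => ?_⟩, hsmul, fun f g => ?_⟩
    · have h1 := (hcC f).1
      rw [h] at h1
      have h2 : ‖f‖ ≤ 0 := by
        by_contra hcon
        exact absurd (mul_pos hc (not_le.1 hcon)) (not_lt.2 h1)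
      exact norm_le_zero_iff.1 h2
    · rw [h]
      have h1 := (hcC 0).2
      rw [norm_zero, mul_zero] at h1
      exact le_antisymm h1 (hN0 0)
    · refine (Real.rpow_le_rpow (hN0 _) (hadd f g) hs.le).trans ?_
      have h1 := NNReal.rpow_add_le_add_rpow ⟨N f, hN0 f⟩ ⟨N g, hN0 g⟩ hs.le hs1
      exact_mod_cast h1
  · intro f m _ A hA hgr B b hB
    unfold lin
    simp only [hcoef, hhaar]
    refine hgreedy f A B ?_ (by rw [hA]; exact hB) b
    intro i hi j hj
    have := hgr i hi j hj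
    rwa [hcoef, hcoef] at this

end Pool.Agent.Results.MP_877d49_an.OneGreedyNorm
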